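import Mathlib
import Pool.Agent.H26.BL7

set_option autoImplicit false

open Filter Topology TopologicalSpace

namespace Pool.Agent.Results.MP_566259_an.Proof

open H26 BL0 BL1 BL5 BL7

noncomputable def iter {A : ℕ → BL} (φ : ∀ n, A n →L[ℝ] A (n + 1)) (n : ℕ) :
    ∀ k, A n →L[ℝ] A (n + k)
  | 0 => .id ℝ (A n)
  | k + 1 => (φ (n + k)).comp (iter φ n k)

def IsLimit {A : ℕ → BL} (φ : ∀ n, A n →L[ℝ] A (n + 1)) (E : BL) : Prop :=
  ∃ ψ : ∀ n, A n →L[ℝ] E, (∀ n, IsHom (ψ n)) ∧ (∀ n, (ψ (n + 1)).comp (φ n) = ψ n) ∧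
    Dense (⋃ n, Set.range (ψ n)) ∧
    ∀ n x, Tendsto (fun k => ‖iter φ n k x‖) atTop (𝓝 ‖ψ n x‖)

theorem result (E : BL) (hE : SeparableSpace E) :
    ∃ (A : ℕ → BL) (φ : ∀ n, A n →L[ℝ] A (n + 1)), (∀ n, Semiproj (A n)) ∧
      (∀ n, IsHom (φ n) ∧ ‖φ n‖ ≤ 1) ∧ IsLimit φ E := by
  obtain ⟨c, hc⟩ := exists_dense_seq E
  let d : ℕ → E := fun k => ((⌈‖c k‖⌉₊ + 1 : ℕ) : ℝ)⁻¹ • c k
  have d0 : ∀ k, (0 : ℝ) < (⌈‖c k‖⌉₊ + 1 : ℕ) := fun k => by positivity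
  have d1 : ∀ k, ‖d k‖ ≤ 1 := fun k => by
    rw [norm_smul, norm_inv, Real.norm_of_nonneg (d0 k).le, inv_mul_le_one₀ (d0 k)]
    exact (Nat.le_ceil _).trans (by simp)
  have d2 : DenseRange (ev d) := hc.mono (by
    rintro _ ⟨k, rfl⟩
    refine ⟨.lin (⌈‖c k‖⌉₊ + 1 : ℕ) .zero (.var k), ?_⟩
    rw [ev, ev, ev, zero_add, Rat.cast_natCast, smul_inv_smul₀ (d0 k).ne'])
  haveI : Nonempty (Tm ℕ) := ⟨.zero⟩
  obtain ⟨τ, hτ⟩ := exists_surjective_nat (Tm ℕ × ℕ)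
  let r : ℕ → ℝ := fun i => ‖ev d (τ i).1‖ + 1 / ((τ i).2 + 1)
  have r0 : ∀ i, ‖ev d (τ i).1‖ < r i := fun i => lt_add_of_pos_right _ Nat.one_div_pos_of_nat
  have r1 : ∀ i, 0 < r i := fun i => (norm_nonneg _).trans_lt (r0 i)
  choose A δ a1 a2 a3 using fun n => exists_univ (fun _ (f : ℕ → _) => (∀ k, ‖f k‖ ≤ 1) ∧
    ∀ i < n, ‖ev f (τ i).1‖ ≤ r i) fun _ _ h => h.1
  have a4 : ∀ n, (∀ k, ‖δ n k‖ ≤ 1) ∧ ∀ i < n, ‖ev (δ n) (τ i).1‖ ≤ r i := fun n =>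
    ⟨fun k => a3 n (.var k) 1 zero_le_one fun _ _ h => h.1 k,
      fun i hi => a3 n _ _ (r1 i).le fun _ _ h => h.2 i hi⟩
  choose φ p1 p2 p3 using fun n => a2 n _ (δ (n + 1))
    ⟨(a4 _).1, fun i hi => (a4 _).2 i (hi.trans n.lt_succ_self)⟩
  choose ψ q1 q2 q3 using fun n => a2 n _ d ⟨d1, fun i _ => (r0 i).le⟩
  have i1 : ∀ n k, IsHom (iter φ n k) ∧ (∀ x, ‖iter φ n k x‖ ≤ ‖x‖) ∧
      ∀ a, iter φ n k (δ n a) = δ (n + k) a := fun n k => by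
    induction k with
    | zero => exact ⟨fun _ => rfl, fun _ => le_rfl, fun _ => rfl⟩
    | succ k ih => exact ⟨IsHom.comp (p1 _) ih.1, fun x => (p2 _ _).trans (ih.2.1 x),
        fun a => (congrArg (φ (n + k)) (ih.2.2 a)).trans (p3 _ a)⟩
  refine ⟨A, φ, fun n => semiproj_of_lift fun X Z Q hX hQ T t1 t2 ε hε => ?_, fun n => ⟨p1 n,
    ContinuousLinearMap.opNorm_le_bound _ zero_le_one fun x => (p2 n x).trans_eq (one_mul _).symm⟩,
    ψ, q1, fun n => hom_ext (IsHom.comp (q1 _) (p1 n)) (q1 n) (a1 n) fun a => by simp [p3, q3],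
    d2.mono (by
      rintro _ ⟨t, rfl⟩
      exact Set.mem_iUnion.2 ⟨0, _, ev_hom (q1 0) (q3 0) t⟩), fun n x => ?_⟩
  · obtain ⟨M, m1, m2, m3, m4⟩ := exists_M hQ.1
    have h0 : 0 < 1 + ε := by positivity
    have t3 : ∀ x, ‖T x‖ ≤ ‖x‖ := fun x => (T.le_of_opNorm_le t2 x).trans_eq (one_mul _)
    choose y y1 y2 using fun k => IsQuot.lift hQ (T (δ n k)) (r := 1 + ε)
      (((t3 _).trans ((a4 n).1 k)).trans_lt (lt_add_of_pos_right _ hε))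
    obtain ⟨m, hm⟩ := ((Finset.range n).eventually_all.2 fun i hi => show ∀ᶠ m in atTop,
      ‖M m (ev y (τ i).1)‖ < (1 + ε) * r i from by
        obtain ⟨w, w1, w2⟩ := IsQuot.lift hQ (T (ev (δ n) (τ i).1)) (r := (1 + ε) * r i)
          (((t3 _).trans ((a4 n).2 i (Finset.mem_range.1 hi))).trans_lt (by nlinarith [r1 i]))
        refine ((m4 (ev y (τ i).1 - w) (by rw [map_sub, w1, ev_hom hQ.1 y1,
          ev_hom t1 fun _ => rfl, sub_self])).norm.eventually (gt_mem_nhds (show ‖(0 : X)‖ < _ from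
            norm_zero.trans_lt (sub_pos.2 w2)))).mono fun m hm => ?_
        rw [← sub_add_cancel (ev y _) w, map_add]
        linarith [norm_add_le (M m (ev y (τ i).1 - w)) (M m w), m2 m w]).exists
    have h1 : IsHom ((1 + ε)⁻¹ • M m) := fun x => by simp [m1 m x, abs_smul', abs_of_pos h0]
    have h2 : ∀ x, ‖((1 + ε)⁻¹ • M m) x‖ = (1 + ε)⁻¹ * ‖M m x‖ := fun x => by
      simp [norm_smul, abs_of_pos h0]
    obtain ⟨S, s1, s2, s3⟩ := a2 n X (fun k => ((1 + ε)⁻¹ • M m) (y k)) ⟨fun k => by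
      rw [h2, inv_mul_le_one₀ h0]; exact (m2 _ _).trans (y2 k).le, fun i hi => by
      rw [← ev_hom h1 fun _ => rfl, h2, inv_mul_le_iff₀ h0]; exact (hm i (Finset.mem_range.2 hi)).le⟩
    have h3 : IsHom ((1 + ε) • S) := fun x => by simp [s1 x, abs_smul', abs_of_pos h0]
    refine ⟨_, h3, ContinuousLinearMap.opNorm_le_bound _ h0.le fun x => ?_,
      hom_ext (IsHom.comp hQ.1 h3) t1 (a1 n) fun a => by simp [s3, h0.ne', m3, y1]⟩
    rw [ContinuousLinearMap.smul_apply, norm_smul, Real.norm_of_nonneg h0.le]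
    exact mul_le_mul_of_nonneg_left (s2 x) h0.le
  · refine tendsto_order.2 ⟨fun a ha => Eventually.of_forall fun k => ha.trans_le ?_, fun a ha => ?_⟩
    · rw [← hom_ext (IsHom.comp (q1 _) (i1 n k).1) (q1 n) (a1 n) fun a => by
        simp [(i1 n k).2.2, q3]]
      exact q2 _ _
    obtain ⟨m, hm⟩ := exists_nat_one_div_lt (show 0 < (a - ‖ψ n x‖) / 3 by linarith)
    obtain ⟨t, ht⟩ := (a1 n).exists_dist_lt x (show 0 < (a - ‖ψ n x‖) / 3 by linarith)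
    obtain ⟨i, hi⟩ := hτ (t, m)
    refine (eventually_gt_atTop i).mono fun k hk => ?_
    have h1 := (a4 (n + k)).2 i (by omega)
    have h2 := (i1 n k).2.1 (x - ev (δ n) t)
    have h3 := q2 n (x - ev (δ n) t)
    simp only [r, hi] at h1
    rw [map_sub, ev_hom (i1 n k).1 (i1 n k).2.2] at h2
    rw [map_sub, ev_hom (q1 n) (q3 n)] at h3
    rw [dist_eq_norm] at ht
    linarith [norm_sub_norm_le (iter φ n k x) (ev (δ (n + k)) t), norm_sub_norm_le (ev d t) (ψ n x),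
      norm_sub_rev (ev d t) (ψ n x)]

end Pool.Agent.Results.MP_566259_an.Proof
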